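import Mathlib

set_option autoImplicit false
set_option linter.unusedSectionVars false

/-!
# Grand cliques (Bose, Bruck)

A graph whose vertices have degree `k`, adjacent vertices have `l` common neighbours and different
nonadjacent vertices at most `mu`: if `k`, `l` are large compared with `mu`, then the edges are
partitioned into cliques.
-/

namespace Pool.Agent.U396.BC

open Finset

variable {P : Type} [Fintype P] [DecidableEq P] {A : P → P → Prop} [∀ x y, Decidable (A x y)]

/-- the neighbours -/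
def nb (A : P → P → Prop) [∀ x y, Decidable (A x y)] (x : P) : Finset P :=
  univ.filter (fun y => A x y)

theorem mem_nb {x y : P} : y ∈ nb A x ↔ A x y := by
  rw [nb, mem_filter]
  exact ⟨fun h => h.2, fun h => ⟨mem_univ _, h⟩⟩

/-- the parameters -/
structure Par (A : P → P → Prop) [∀ x y, Decidable (A x y)] (k l mu d M : ℕ) : Prop where
  symm : ∀ x y, A x y → A y x
  irr : ∀ x, ¬ A x x
  deg : ∀ x, (nb A x).card = k
  lam : ∀ x y, A x y → (nb A x ∩ nb A y).card = l
  mul : ∀ x y, x ≠ y → ¬ A x y → (nb A x ∩ nb A y).card ≤ mu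
  hd : 1 ≤ d
  claw : 2 * k + (d + 1) * d * mu < 2 * (d + 1) * (l + 1)
  size : (d - 1) * (l + 1) + M ≤ k + 1
  big : mu + 3 ≤ M
  big2 : l + mu + 4 ≤ 2 * M

def Ind (A : P → P → Prop) (S : Finset P) : Prop := ∀ y ∈ S, ∀ z ∈ S, y ≠ z → ¬ A y z

def Clq (A : P → P → Prop) (S : Finset P) : Prop := ∀ y ∈ S, ∀ z ∈ S, y ≠ z → A y z

variable {k l mu d M : ℕ}

theorem no_claw (h : Par A k l mu d M) {x : P} {S : Finset P} (hS : S ⊆ nb A x) (hI : Ind A S)
    (hc : S.card = d + 1) : False := by
  have hcl := h.claw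
  -- counting function
  set c : P → ℕ := fun z => (S.filter (fun y => z = y ∨ A y z)).card with hcdef
  have h1 : ∑ z ∈ nb A x, c z = (d + 1) * (l + 1) := by
    simp only [hcdef, card_filter]
    rw [sum_comm]
    have : ∀ y ∈ S, ∑ z ∈ nb A x, (if z = y ∨ A y z then 1 else 0) = l + 1 := by
      intro y hy
      rw [← card_filter]
      have e : (nb A x).filter (fun z => z = y ∨ A y z) = insert y (nb A x ∩ nb A y) := by
        ext z
        rw [mem_filter, mem_insert, mem_inter, mem_nb, mem_nb]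
        constructor
        · rintro ⟨h1, h2 | h2⟩
          · exact Or.inl h2
          · exact Or.inr ⟨h1, h2⟩
        · rintro (rfl | ⟨h1, h2⟩)
          · exact ⟨mem_nb.1 (hS hy), Or.inl rfl⟩
          · exact ⟨h1, Or.inr h2⟩
      rw [e, card_insert_of_notMem, h.lam x y (mem_nb.1 (hS hy))]
      rw [mem_inter, mem_nb, mem_nb]
      exact fun h1 => h.irr y h1.2
    rw [sum_congr rfl this, sum_const, hc, smul_eq_mul]
  have h2 : ∑ z ∈ nb A x, c z * (c z - 1) ≤ (d + 1) * d * mu := by
    have e1 : ∀ z, c z * (c z - 1) =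
        (S.offDiag.filter (fun p => (z = p.1 ∨ A p.1 z) ∧ (z = p.2 ∨ A p.2 z))).card := by
      intro z
      have e2 : (S.offDiag.filter (fun p => (z = p.1 ∨ A p.1 z) ∧ (z = p.2 ∨ A p.2 z))) =
          (S.filter (fun y => z = y ∨ A y z)).offDiag := by
        ext p
        simp only [mem_filter, mem_offDiag]
        tauto
      rw [e2, offDiag_card, hcdef]
      simp only
      rw [Nat.mul_sub, mul_one]
    simp only [e1, card_filter]
    rw [sum_comm]
    have e3 : ∀ p ∈ S.offDiag, ∑ z ∈ nb A x,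
        (if (z = p.1 ∨ A p.1 z) ∧ (z = p.2 ∨ A p.2 z) then 1 else 0) ≤ mu := by
      intro p hp
      rw [mem_offDiag] at hp
      rw [← card_filter]
      refine le_trans (card_le_card ?_) (h.mul p.1 p.2 hp.2.2 (hI _ hp.1 _ hp.2.1 hp.2.2))
      intro z hz
      rw [mem_filter] at hz
      rw [mem_inter, mem_nb, mem_nb]
      obtain ⟨-, h3, h4⟩ := hz
      have n1 := hI _ hp.1 _ hp.2.1 hp.2.2
      have n2 := hI _ hp.2.1 _ hp.1 (Ne.symm hp.2.2)
      constructor
      · rcases h3 with h3 | h3
        · exfalso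
          rcases h4 with h4 | h4
          · exact hp.2.2 (h3.symm.trans h4)
          · rw [h3] at h4
            exact n2 h4
        · exact h3
      · rcases h4 with h4 | h4
        · exfalso
          rcases h3 with h3 | h3
          · exact hp.2.2 (h3.symm.trans h4)
          · rw [h4] at h3
            exact n1 h3
        · exact h4
    refine le_trans (sum_le_sum e3) ?_
    rw [sum_const, smul_eq_mul, offDiag_card, hc]
    refine Nat.mul_le_mul_right _ ?_
    rw [show (d + 1) * (d + 1) - (d + 1) = (d + 1) * d by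
      rw [← Nat.mul_sub_one, Nat.add_sub_cancel]]
  have h3 : ∑ z ∈ nb A x, 2 * c z ≤ ∑ z ∈ nb A x, (2 + c z * (c z - 1)) := by
    refine sum_le_sum fun z _ => ?_
    rcases Nat.lt_or_ge (c z) 2 with h4 | h4
    · have : c z = 0 ∨ c z = 1 := by omega
      rcases this with h5 | h5 <;> rw [h5] <;> norm_num
    · obtain ⟨e, he⟩ : ∃ e, c z = e + 2 := ⟨c z - 2, by omega⟩
      rw [he, show e + 2 - 1 = e + 1 by omega]
      nlinarith
  rw [← mul_sum, h1, sum_add_distrib, sum_const, h.deg, smul_eq_mul] at h3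
  nlinarith

theorem ind_le (h : Par A k l mu d M) {x : P} {S : Finset P} (hS : S ⊆ nb A x) (hI : Ind A S) :
    S.card ≤ d := by
  by_contra hlt
  obtain ⟨T, hT, hc⟩ := exists_subset_card_eq (s := S) (n := d + 1) (by omega)
  exact no_claw h (hT.trans hS) (fun y hy z hz => hI y (hT hy) z (hT hz)) hc

theorem clique (h : Par A k l mu d M) {x y : P} (hxy : A x y) :
    ∃ K : Finset P, Clq A K ∧ x ∈ K ∧ y ∈ K ∧ M ≤ K.card := by
  classical
  have hne : (((nb A x).powerset).filter (fun S => y ∈ S ∧ Ind A S)).Nonempty := by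
    refine ⟨{y}, ?_⟩
    rw [mem_filter, mem_powerset, singleton_subset_iff, mem_nb]
    refine ⟨hxy, mem_singleton_self _, ?_⟩
    intro a ha b hb hab
    rw [mem_singleton] at ha hb
    exact absurd (ha.trans hb.symm) hab
  obtain ⟨S, hS, hmax⟩ := exists_max_image _ Finset.card hne
  rw [mem_filter, mem_powerset] at hS
  obtain ⟨hSx, hyS, hI⟩ := hS
  have hcov : nb A x ⊆ S.biUnion (fun s => insert s (nb A x ∩ nb A s)) := by
    intro z hz
    by_contra hn
    rw [mem_biUnion] at hn
    push Not at hn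
    have hzS : z ∉ S := fun h1 => hn z h1 (mem_insert_self _ _)
    have hnA : ∀ s ∈ S, ¬ A s z := by
      intro s hs h1
      refine hn s hs (mem_insert_of_mem ?_)
      rw [mem_inter]
      exact ⟨hz, mem_nb.2 h1⟩
    have h1 := hmax (insert z S) (by
      rw [mem_filter, mem_powerset, insert_subset_iff]
      refine ⟨⟨hz, hSx⟩, mem_insert_of_mem hyS, ?_⟩
      intro a ha b hb hab
      rw [mem_insert] at ha hb
      rcases ha with rfl | ha
      · rcases hb with rfl | hb
        · exact absurd rfl hab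
        · exact fun h2 => hnA b hb (h.symm _ _ h2)
      · rcases hb with rfl | hb
        · exact hnA a ha
        · exact hI a ha b hb hab)
    rw [card_insert_of_notMem hzS] at h1
    omega
  have hbl : ∀ s ∈ S, (insert s (nb A x ∩ nb A s)).card = l + 1 := by
    intro s hs
    rw [card_insert_of_notMem, h.lam x s (mem_nb.1 (hSx hs))]
    rw [mem_inter, mem_nb, mem_nb]
    exact fun h1 => h.irr s h1.2
  have hM := h.big
  have hsz := h.size
  have hcard : S.card = d := by
    have h1 := ind_le h hSx hI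
    have h2 := (card_le_card hcov).trans card_biUnion_le
    rw [h.deg, sum_congr rfl hbl, sum_const, smul_eq_mul] at h2
    by_contra hne'
    have h3 : S.card ≤ d - 1 := by omega
    have h4 : S.card * (l + 1) ≤ (d - 1) * (l + 1) := Nat.mul_le_mul_right _ h3
    omega
  set S' := S.erase y with hS'
  have hcS' : S'.card = d - 1 := by rw [hS', card_erase_of_mem hyS, hcard]
  set U := S'.biUnion (fun s => insert s (nb A x ∩ nb A s)) with hU
  have hUc : U.card ≤ (d - 1) * (l + 1) := by
    refine card_biUnion_le.trans ?_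
    rw [sum_congr rfl (fun s hs => hbl s (mem_of_mem_erase hs)), sum_const, smul_eq_mul, hcS']
  set C := nb A x \ U with hC
  have hCc : k ≤ C.card + (d - 1) * (l + 1) := by
    have h1 : (nb A x).card ≤ C.card + U.card := by
      refine le_trans (card_le_card (t := C ∪ U) ?_) (card_union_le _ _)
      intro z hz
      rw [mem_union, hC, mem_sdiff]
      by_cases h2 : z ∈ U
      · exact Or.inr h2
      · exact Or.inl ⟨hz, h2⟩
    rw [h.deg] at h1
    omega
  have hmemC : ∀ z, z ∈ C → A x z ∧ ∀ s ∈ S', z ≠ s ∧ ¬ A s z := by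
    intro z hz
    rw [hC, mem_sdiff, mem_nb] at hz
    refine ⟨hz.1, fun s hs => ⟨?_, fun h1 => ?_⟩⟩
    · rintro rfl
      exact hz.2 (mem_biUnion.2 ⟨z, hs, mem_insert_self _ _⟩)
    · exact hz.2 (mem_biUnion.2 ⟨s, hs, mem_insert_of_mem (mem_inter.2 ⟨mem_nb.2 hz.1, mem_nb.2 h1⟩)⟩)
  have hIS' : Ind A S' := fun a ha b hb => hI a (mem_of_mem_erase ha) b (mem_of_mem_erase hb)
  have hClqC : Clq A C := by
    intro z hz w hw hzw
    by_contra hn
    have hz1 := hmemC z hz
    have hw1 := hmemC w hw
    have hzS : z ∉ S' := fun h1 => (hz1.2 z h1).1 rfl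
    have hwS : w ∉ S' := fun h1 => (hw1.2 w h1).1 rfl
    refine no_claw h (x := x) (S := insert z (insert w S')) ?_ ?_ ?_
    · rw [insert_subset_iff, insert_subset_iff]
      exact ⟨mem_nb.2 hz1.1, mem_nb.2 hw1.1, (erase_subset _ _).trans hSx⟩
    · intro a ha b hb hab
      rw [mem_insert, mem_insert] at ha hb
      rcases ha with rfl | rfl | ha
      · rcases hb with rfl | rfl | hb
        · exact absurd rfl hab
        · exact hn
        · exact fun h2 => (hz1.2 b hb).2 (h.symm _ _ h2)
      · rcases hb with rfl | rfl | hb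
        · exact fun h2 => hn (h.symm _ _ h2)
        · exact absurd rfl hab
        · exact fun h2 => (hw1.2 b hb).2 (h.symm _ _ h2)
      · rcases hb with rfl | rfl | hb
        · exact (hz1.2 a ha).2
        · exact (hw1.2 a ha).2
        · exact hIS' a ha b hb hab
    · rw [card_insert_of_notMem, card_insert_of_notMem hwS, hcS']
      · have := h.hd
        omega
      · rw [mem_insert]
        rintro (h1 | h1)
        · exact hzw h1
        · exact hzS h1
  have hxC : x ∉ C := fun h1 => h.irr x (hmemC x h1).1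
  refine ⟨insert x C, ?_, mem_insert_self _ _, mem_insert_of_mem ?_, ?_⟩
  · intro a ha b hb hab
    rw [mem_insert] at ha hb
    rcases ha with rfl | ha
    · rcases hb with rfl | hb
      · exact absurd rfl hab
      · exact (hmemC b hb).1
    · rcases hb with rfl | hb
      · exact h.symm _ _ (hmemC a ha).1
      · exact hClqC a ha b hb hab
  · rw [hC, mem_sdiff, mem_nb]
    refine ⟨hxy, fun h1 => ?_⟩
    obtain ⟨s, hs, h2⟩ := mem_biUnion.1 h1
    have hsy : s ≠ y := ne_of_mem_erase hs
    rw [mem_insert, mem_inter] at h2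
    rcases h2 with h2 | h2
    · exact hsy h2.symm
    · exact hI s (mem_of_mem_erase hs) y hyS hsy (mem_nb.1 h2.2)
  · rw [card_insert_of_notMem hxC]
    omega

/-- the vertices adjacent to all other vertices of `K` -/
def cl (A : P → P → Prop) [∀ x y, Decidable (A x y)] (K : Finset P) : Finset P :=
  univ.filter (fun z => ∀ w ∈ K, w ≠ z → A w z)

theorem mem_cl {K : Finset P} {z : P} : z ∈ cl A K ↔ ∀ w ∈ K, w ≠ z → A w z := by
  rw [cl, mem_filter]
  exact ⟨fun h => h.2, fun h => ⟨mem_univ _, h⟩⟩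

theorem sub_cl {K : Finset P} (hK : Clq A K) : K ⊆ cl A K := fun z hz =>
  mem_cl.2 fun w hw hwz => hK w hw z hz hwz

theorem cl_anti {K L : Finset P} (h : K ⊆ L) : cl A L ⊆ cl A K := fun _ hz =>
  mem_cl.2 fun w hw hwz => mem_cl.1 hz w (h hw) hwz

theorem cl_clq (h : Par A k l mu d M) {K : Finset P} (hM : M ≤ K.card) :
    Clq A (cl A K) := by
  intro z hz w hw hzw
  by_contra hn
  have h1 : (K \ {z, w}).card ≤ mu := by
    refine le_trans (card_le_card ?_) (h.mul z w hzw hn)
    intro v hv
    rw [mem_sdiff, mem_insert, mem_singleton, not_or] at hv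
    rw [mem_inter, mem_nb, mem_nb]
    exact ⟨h.symm _ _ (mem_cl.1 hz v hv.1 hv.2.1), h.symm _ _ (mem_cl.1 hw v hv.1 hv.2.2)⟩
  have h2 : K.card ≤ (K \ {z, w}).card + ({z, w} : Finset P).card := by
    refine le_trans (card_le_card ?_) (card_union_le _ _)
    intro v hv
    rw [mem_union, mem_sdiff]
    by_cases h3 : v ∈ ({z, w} : Finset P)
    · exact Or.inr h3
    · exact Or.inl ⟨hv, h3⟩
  have h3 : ({z, w} : Finset P).card ≤ 2 := card_le_two
  have := h.big
  omega

theorem uniq (h : Par A k l mu d M) {K L : Finset P} (hK : Clq A K) (hL : Clq A L)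
    (hMK : M ≤ K.card) (hML : M ≤ L.card) {x y : P} (hxy : x ≠ y) (hxK : x ∈ K) (hyK : y ∈ K)
    (hxL : x ∈ L) (hyL : y ∈ L) : L ⊆ cl A K := by
  intro z hz
  rw [mem_cl]
  intro w hw hwz
  by_contra hn
  have hb := h.big2
  have hA : A x y := hK x hxK y hyK hxy
  have h1 : (K ∪ L).card ≤ l + 2 := by
    have h2 : K ∪ L ⊆ insert x (insert y (nb A x ∩ nb A y)) := by
      intro v hv
      rw [mem_insert, mem_insert, mem_inter, mem_nb, mem_nb]
      by_cases hvx : v = x
      · exact Or.inl hvx
      by_cases hvy : v = y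
      · exact Or.inr (Or.inl hvy)
      right; right
      rcases mem_union.1 hv with hv | hv
      · exact ⟨hK x hxK v hv (Ne.symm hvx), hK y hyK v hv (Ne.symm hvy)⟩
      · exact ⟨hL x hxL v hv (Ne.symm hvx), hL y hyL v hv (Ne.symm hvy)⟩
    refine (card_le_card h2).trans ((card_insert_le _ _).trans ?_)
    have := card_insert_le y (nb A x ∩ nb A y)
    rw [h.lam x y hA] at this
    omega
  have h3 : (K ∪ L).card + (K ∩ L).card = K.card + L.card := card_union_add_card_inter K L
  have h4 : ((K ∩ L) \ {z, w}).card ≤ mu := by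
    refine le_trans (card_le_card ?_) (h.mul w z hwz hn)
    intro v hv
    rw [mem_sdiff, mem_inter, mem_insert, mem_singleton, not_or] at hv
    rw [mem_inter, mem_nb, mem_nb]
    exact ⟨hK w hw v hv.1.1 (Ne.symm hv.2.2), hL z hz v hv.1.2 (Ne.symm hv.2.1)⟩
  -- w is not in L, so w is not in the intersection
  have hwL : w ∉ L := fun h5 => hn (hL w h5 z hz hwz)
  have h5 : (K ∩ L).card ≤ ((K ∩ L) \ {z, w}).card + 1 := by
    have h6 : K ∩ L ⊆ insert z ((K ∩ L) \ {z, w}) := by
      intro v hv
      rw [mem_insert, mem_sdiff, mem_insert, mem_singleton]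
      by_cases h7 : v = z
      · exact Or.inl h7
      · refine Or.inr ⟨hv, ?_⟩
        rintro (h8 | h8)
        · exact h7 h8
        · rw [h8] at hv
          exact hwL (mem_inter.1 hv).2
    exact (card_le_card h6).trans (card_insert_le _ _)
  omega

/-- the grand cliques -/
def GC (A : P → P → Prop) (M : ℕ) [∀ x y, Decidable (A x y)] (K : Finset P) : Prop :=
  Clq A K ∧ M ≤ K.card ∧ cl A K = K

theorem gc_exists (h : Par A k l mu d M) {x y : P} (hxy : A x y) :
    ∃ K : Finset P, GC A M K ∧ x ∈ K ∧ y ∈ K := by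
  obtain ⟨K, hK, hx, hy, hM⟩ := clique h hxy
  have h1 := sub_cl hK
  have h2 := cl_clq h hM
  refine ⟨cl A K, ⟨h2, hM.trans (card_le_card h1), ?_⟩, h1 hx, h1 hy⟩
  exact subset_antisymm (cl_anti h1) (sub_cl h2)

theorem gc_uniq (h : Par A k l mu d M) {K L : Finset P} (hK : GC A M K) (hL : GC A M L) {x y : P}
    (hxy : x ≠ y) (hxK : x ∈ K) (hyK : y ∈ K) (hxL : x ∈ L) (hyL : y ∈ L) : K = L := by
  refine subset_antisymm ?_ ?_
  · have := uniq h hL.1 hK.1 hL.2.1 hK.2.1 hxy hxL hyL hxK hyK
    rwa [hL.2.2] at this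
  · have := uniq h hK.1 hL.1 hK.2.1 hL.2.1 hxy hxK hyK hxL hyL
    rwa [hK.2.2] at this

/-- the size of the grand cliques -/
theorem gc_card (h : Par A k l mu d M) {n : ℕ} (hn : 2 ≤ n) (hk : k = d * (n - 1))
    (hclq : ∀ K : Finset P, Clq A K → K.card ≤ n) (hMk : k < (d + 1) * (M - 1))
    {K : Finset P} (hK : GC A M K) : K.card = n := by
  classical
  have hb := h.big
  have hne : K.Nonempty := by
    rw [← card_pos]
    have := hK.2.1
    omega
  obtain ⟨x, hx⟩ := hne
  set F := univ.filter (fun K : Finset P => GC A M K ∧ x ∈ K) with hF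
  have hmem : ∀ L, L ∈ F ↔ GC A M L ∧ x ∈ L := fun L => by
    rw [hF, mem_filter]
    exact ⟨fun h => h.2, fun h => ⟨mem_univ _, h⟩⟩
  have hsum : k = ∑ L ∈ F, (L.card - 1) := by
    have e : nb A x = F.biUnion (fun L => L.erase x) := by
      ext z
      rw [mem_nb, mem_biUnion]
      constructor
      · intro hz
        obtain ⟨L, hL, h1, h2⟩ := gc_exists h hz
        refine ⟨L, (hmem L).2 ⟨hL, h1⟩, mem_erase.2 ⟨?_, h2⟩⟩
        rintro rfl
        exact h.irr z hz
      · rintro ⟨L, hL, hz⟩
        rw [mem_erase] at hz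
        have h1 := (hmem L).1 hL
        exact h1.1.1 x h1.2 z hz.2 (Ne.symm hz.1)
    rw [← h.deg x, e, card_biUnion]
    · refine sum_congr rfl fun L hL => ?_
      rw [card_erase_of_mem ((hmem L).1 hL).2]
    · intro L hL L' hL' hne
      rw [Function.onFun, disjoint_left]
      intro z hz hz'
      rw [mem_erase] at hz hz'
      have h1 := (hmem L).1 hL
      have h2 := (hmem L').1 hL'
      exact hne (gc_uniq h h1.1 h2.1 (Ne.symm hz.1) h1.2 hz.2 h2.2 hz'.2)
  have ht : F.card ≤ d := by
    by_contra hlt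
    have h1 : (d + 1) * (M - 1) ≤ k := by
      calc (d + 1) * (M - 1) ≤ F.card * (M - 1) := Nat.mul_le_mul_right _ (by omega)
        _ = ∑ L ∈ F, (M - 1) := by rw [sum_const, smul_eq_mul]
        _ ≤ ∑ L ∈ F, (L.card - 1) := sum_le_sum fun L hL => by
            have := ((hmem L).1 hL).1.2.1
            omega
        _ = k := hsum.symm
    omega
  by_contra hne
  have hle := hclq K hK.1
  have hlt : ∑ L ∈ F, (L.card - 1) < ∑ L ∈ F, (n - 1) := by
    refine sum_lt_sum (fun L hL => ?_) ⟨K, (hmem K).2 ⟨hK, hx⟩, ?_⟩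
    · have := hclq L ((hmem L).1 hL).1.1
      omega
    · have := hK.2.1
      omega
  rw [← hsum, sum_const, smul_eq_mul, hk] at hlt
  have : F.card * (n - 1) ≤ d * (n - 1) := Nat.mul_le_mul_right _ ht
  omega

end Pool.Agent.U396.BC
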