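import Pool.Agent.U396.BC.Graph
import Pool.Agent.R116.AF.Facts

set_option autoImplicit false
set_option linter.unusedSectionVars false

/-!
# The completion of nets of small deficiency (Bruck)
-/

namespace Pool.Agent.U396.BC

open Finset
open Pool.Agent.R116.AF (Aff)

variable {P : Type} [Fintype P] [DecidableEq P] {n r : ℕ}

/-- `r` parallel classes -/
structure Net (n r : ℕ) (f : Fin r → P → Fin n) : Prop where
  bij : ∀ i j, i ≠ j → Function.Bijective (fun x => (f i x, f j x))

/-- not collinear -/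
def Adj (f : Fin r → P → Fin n) (x y : P) : Prop := ∀ i, f i x ≠ f i y

instance (f : Fin r → P → Fin n) (x y : P) : Decidable (Adj f x y) :=
  inferInstanceAs (Decidable (∀ i, f i x ≠ f i y))

variable {f : Fin r → P → Fin n}

theorem net_card (h : Net n r f) (hr : 2 ≤ r) : Fintype.card P = n ^ 2 := by
  have h1 := h.bij ⟨0, by omega⟩ ⟨1, by omega⟩ (by
    intro h2
    exact absurd (congrArg Fin.val h2) (by norm_num))
  rw [Fintype.card_of_bijective h1, Fintype.card_prod, Fintype.card_fin, sq]

theorem inj (h : Net n r f) {i j : Fin r} (hij : i ≠ j) {x y : P} (h1 : f i x = f i y)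
    (h2 : f j x = f j y) : x = y := (h.bij i j hij).1 (Prod.ext h1 h2)

theorem fibre (h : Net n r f) (hr : 2 ≤ r) (i : Fin r) (a : Fin n) :
    (univ.filter (fun z => f i z = a)).card = n := by
  obtain ⟨j, hj⟩ : ∃ j : Fin r, i ≠ j := by
    by_cases h0 : (i : ℕ) = 0
    · exact ⟨⟨1, by omega⟩, fun h2 => by
        have := congrArg Fin.val h2
        simp only at this
        omega⟩
    · exact ⟨⟨0, by omega⟩, fun h2 => h0 (congrArg Fin.val h2)⟩
  have hb := h.bij i j hj
  have e : (univ : Finset (Fin n)).card = n := by rw [card_univ, Fintype.card_fin]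
  refine Eq.trans ?_ e
  refine card_bij (fun z _ => f j z) (fun _ _ => mem_univ _) ?_ ?_
  · intro z hz w hw hzw
    rw [mem_filter] at hz hw
    exact inj h hj (hz.2.trans hw.2.symm) hzw
  · intro b _
    obtain ⟨z, hz⟩ := hb.2 (a, b)
    rw [Prod.mk.injEq] at hz
    exact ⟨z, mem_filter.2 ⟨mem_univ _, hz.1⟩, hz.2⟩

/-- the number of classes in which two points are together -/
def c (f : Fin r → P → Fin n) (x y : P) : ℤ := ∑ i, if f i x = f i y then 1 else 0

theorem c_self (x : P) : c f x x = r := by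
  simp [c]

theorem c_adj {x y : P} (h : Adj f x y) : c f x y = 0 := by
  rw [c]
  exact sum_eq_zero fun i _ => if_neg (h i)

theorem c_one (h : Net n r f) {x y : P} (hxy : x ≠ y) (hA : ¬ Adj f x y) : c f x y = 1 := by
  unfold Adj at hA
  push Not at hA
  obtain ⟨i, hi⟩ := hA
  rw [c, sum_eq_single i, if_pos hi]
  · intro j _ hji
    rw [if_neg]
    intro hj
    exact hxy (inj h hji hj hi)
  · exact fun h1 => absurd (mem_univ _) h1

/-- the adjacency function -/
def a (f : Fin r → P → Fin n) (x y : P) : ℤ := if Adj f x y then 1 else 0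

theorem a_eq (h : Net n r f) (hr : 2 ≤ r) (x y : P) :
    a f x y = 1 - c f x y + (r - 1) * (if x = y then 1 else 0) := by
  unfold a
  by_cases hxy : x = y
  · subst hxy
    rw [if_neg, if_pos rfl, c_self]
    · ring
    · intro h1
      exact h1 ⟨0, by omega⟩ rfl
  · rw [if_neg hxy]
    by_cases hA : Adj f x y
    · rw [if_pos hA, c_adj hA]
      ring
    · rw [if_neg hA, c_one h hxy hA]
      ring

theorem sum_c (h : Net n r f) (hr : 2 ≤ r) (x : P) : ∑ z, c f x z = r * n := by
  unfold c
  rw [sum_comm]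
  have : ∀ i ∈ (univ : Finset (Fin r)), ∑ z, (if f i x = f i z then (1 : ℤ) else 0) = n := by
    intro i _
    rw [sum_boole]
    have := fibre h hr i (f i x)
    have e : (univ.filter (fun z => f i x = f i z)) = univ.filter (fun z => f i z = f i x) := by
      ext z
      rw [mem_filter, mem_filter, eq_comm]
    rw [e, this]
  rw [sum_congr rfl this, sum_const, card_univ, Fintype.card_fin, nsmul_eq_mul]

theorem sum_cc (h : Net n r f) (hr : 2 ≤ r) (x y : P) :
    ∑ z, c f x z * c f y z = r * (r - 1) + n * c f x y := by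
  unfold c
  simp only [sum_mul_sum]
  rw [sum_comm]
  have e1 : ∀ i ∈ (univ : Finset (Fin r)), ∑ z, ∑ j, (if f i x = f i z then (1 : ℤ) else 0) *
      (if f j y = f j z then 1 else 0) =
      (r - 1) + n * (if f i x = f i y then 1 else 0) := by
    intro i _
    rw [sum_comm]
    have e2 : ∀ j ∈ (univ : Finset (Fin r)), ∑ z, (if f i x = f i z then (1 : ℤ) else 0) *
        (if f j y = f j z then 1 else 0) =
        1 + (if i = j then (n * (if f i x = f i y then 1 else 0) - 1 : ℤ) else 0) := by
      intro j _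
      by_cases hij : i = j
      · subst hij
        rw [if_pos rfl]
        by_cases hxy : f i x = f i y
        · rw [if_pos hxy]
          have e3 : ∀ z ∈ (univ : Finset P), (if f i x = f i z then (1 : ℤ) else 0) *
              (if f i y = f i z then 1 else 0) = if f i x = f i z then 1 else 0 := by
            intro z _
            rw [hxy]
            split_ifs <;> norm_num
          rw [sum_congr rfl e3, sum_boole]
          have e : (univ.filter (fun z => f i x = f i z)) =
              univ.filter (fun z => f i z = f i x) := by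
            ext z
            rw [mem_filter, mem_filter, eq_comm]
          rw [e, fibre h hr]
          ring
        · rw [if_neg hxy, sum_eq_zero]
          · ring
          · intro z _
            by_cases h1 : f i x = f i z
            · exact mul_eq_zero_of_right _ (if_neg (fun h2 => hxy (h1.trans (Eq.symm h2))))
            · exact mul_eq_zero_of_left (if_neg h1) _
      · rw [if_neg hij, add_zero]
        obtain ⟨z0, hz0⟩ := (h.bij i j hij).2 (f i x, f j y)
        rw [Prod.mk.injEq] at hz0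
        rw [sum_eq_single z0, if_pos hz0.1.symm, if_pos hz0.2.symm, mul_one]
        · intro z _ hz
          by_cases h1 : f i x = f i z
          · refine mul_eq_zero_of_right _ (if_neg fun h2 => ?_)
            exact hz (inj h hij (h1.symm.trans hz0.1.symm) (h2.symm.trans hz0.2.symm))
          · exact mul_eq_zero_of_left (if_neg h1) _
        · exact fun h1 => absurd (mem_univ _) h1
    rw [sum_congr rfl e2, sum_add_distrib, sum_const, card_univ, Fintype.card_fin, sum_ite_eq,
      if_pos (mem_univ _), nsmul_eq_mul]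
    ring
  rw [sum_congr rfl e1, sum_add_distrib, sum_const, card_univ, Fintype.card_fin, nsmul_eq_mul,
    ← mul_sum]

theorem deg_z (h : Net n r f) (hr : 2 ≤ r) (x : P) :
    ((nb (Adj f) x).card : ℤ) = n ^ 2 - r * n + (r - 1) := by
  have e : ((nb (Adj f) x).card : ℤ) = ∑ z, a f x z := by
    unfold a nb
    rw [sum_boole]
  rw [e, sum_congr rfl fun z _ => a_eq h hr x z, sum_add_distrib, sum_sub_distrib, sum_c h hr,
    ← mul_sum, sum_ite_eq, if_pos (mem_univ _), sum_const, card_univ, net_card h hr, nsmul_eq_mul]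
  push_cast
  ring

theorem inter_z (h : Net n r f) (hr : 2 ≤ r) {x y : P} (hxy : x ≠ y) :
    ((nb (Adj f) x ∩ nb (Adj f) y).card : ℤ) =
      n ^ 2 - 2 * r * n + r * (r - 1) + 2 * (r - 1) + c f x y * (n - 2 * (r - 1)) := by
  have e : ((nb (Adj f) x ∩ nb (Adj f) y).card : ℤ) = ∑ z, a f x z * a f y z := by
    have e1 : nb (Adj f) x ∩ nb (Adj f) y =
        univ.filter (fun z => Adj f x z ∧ Adj f y z) := by
      ext z
      rw [mem_inter, mem_nb, mem_nb, mem_filter]
      exact ⟨fun h => ⟨mem_univ _, h⟩, fun h => h.2⟩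
    rw [e1, ← sum_boole]
    refine sum_congr rfl fun z _ => ?_
    unfold a
    by_cases h1 : Adj f x z <;> by_cases h2 : Adj f y z <;> simp [h1, h2]
  have cs : ∀ u v : P, c f u v = c f v u := by
    intro u v
    unfold c
    refine sum_congr rfl fun i _ => ?_
    by_cases h1 : f i u = f i v
    · rw [if_pos h1, if_pos h1.symm]
    · rw [if_neg h1, if_neg (Ne.symm h1)]
  have e2 : ∀ z ∈ (univ : Finset P), a f x z * a f y z =
      1 - c f x z - c f y z + c f x z * c f y z
        + (r - 1) * (if x = z then (1 - c f y x) else 0)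
        + (r - 1) * (if y = z then (1 - c f x y) else 0) := by
    intro z _
    rw [a_eq h hr, a_eq h hr]
    by_cases h1 : x = z
    · subst h1
      rw [if_pos rfl, if_neg (Ne.symm hxy), if_pos rfl, if_neg (Ne.symm hxy), c_self]
      ring
    · by_cases h2 : y = z
      · subst h2
        rw [if_pos rfl, if_neg hxy, if_pos rfl, if_neg hxy, c_self]
        ring
      · rw [if_neg h1, if_neg h2, if_neg h1, if_neg h2]
        ring
  rw [e, sum_congr rfl e2]
  simp only [sum_add_distrib, sum_sub_distrib]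
  rw [sum_c h hr, sum_c h hr, sum_cc h hr, ← mul_sum, ← mul_sum, sum_ite_eq, sum_ite_eq,
    if_pos (mem_univ _), if_pos (mem_univ _), sum_const, card_univ, net_card h hr, nsmul_eq_mul,
    cs y x]
  push_cast
  ring

/-- the threshold -/
theorem par_of_net (h : Net n r f) {d : ℕ} (hd : 1 ≤ d) (hrd : r + d = n + 1)
    (hn : 100 * (d + 1) ^ 4 ≤ n) :
    ∃ k l mu M : ℕ, Par (Adj f) k l mu d M ∧ k = d * (n - 1) ∧ k < (d + 1) * (M - 1) := by
  have hd4 : d + 1 ≤ (d + 1) ^ 4 := Nat.le_self_pow (by norm_num) _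
  have hr : 2 ≤ r := by omega
  have hd' : (1 : ℤ) ≤ d := by exact_mod_cast hd
  have hn' : (100 : ℤ) * (d + 1) ^ 4 ≤ n := by exact_mod_cast hn
  have hr' : (r : ℤ) = n + 1 - d := by
    have : (r : ℤ) + d = n + 1 := by exact_mod_cast hrd
    linarith
  have p2 : (0 : ℤ) ≤ d ^ 2 := by positivity
  have p3 : (0 : ℤ) ≤ d ^ 3 := by positivity
  have p4 : (0 : ℤ) ≤ d ^ 4 := by positivity
  have hexp : ((d : ℤ) + 1) ^ 4 = d ^ 4 + 4 * d ^ 3 + 6 * d ^ 2 + 4 * d + 1 := by ring
  rw [hexp] at hn'
  obtain ⟨k, hk⟩ : ∃ k : ℕ, k = d * (n - 1) := ⟨_, rfl⟩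
  have hkz : (k : ℤ) = d * (n - 1) := by
    rw [hk]
    push_cast [Nat.cast_sub (show 1 ≤ n by omega)]
    ring
  obtain ⟨l, hl⟩ : ∃ l : ℕ, (l : ℤ) = n - 3 * d + d ^ 2 := by
    refine ⟨((n : ℤ) - 3 * d + d ^ 2).toNat, Int.toNat_of_nonneg ?_⟩
    nlinarith
  obtain ⟨mu, hmu⟩ : ∃ mu : ℕ, (mu : ℤ) = d * (d - 1) := by
    refine ⟨d * (d - 1), ?_⟩
    push_cast [Nat.cast_sub hd]
    ring
  obtain ⟨M, hM⟩ : ∃ M : ℕ, (M : ℤ) = n - (d - 1) ^ 2 * (d - 2) := by
    refine ⟨((n : ℤ) - (d - 1) ^ 2 * (d - 2)).toNat, Int.toNat_of_nonneg ?_⟩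
    nlinarith
  have hM1 : 1 ≤ M := by
    have : (1 : ℤ) ≤ M := by
      rw [hM]
      nlinarith
    exact_mod_cast this
  refine ⟨k, l, mu, M, ⟨?_, ?_, ?_, ?_, ?_, hd, ?_, ?_, ?_, ?_⟩, hk, ?_⟩
  · intro x y hA i
    exact Ne.symm (hA i)
  · intro x hA
    exact hA ⟨0, by omega⟩ rfl
  · intro x
    have h1 := deg_z h hr x
    rw [hr'] at h1
    have : ((nb (Adj f) x).card : ℤ) = k := by
      rw [h1, hkz]
      ring
    exact_mod_cast this
  · intro x y hA
    have hxy : x ≠ y := by
      rintro rfl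
      exact hA ⟨0, by omega⟩ rfl
    have h1 := inter_z h hr hxy
    rw [c_adj hA, hr'] at h1
    have : ((nb (Adj f) x ∩ nb (Adj f) y).card : ℤ) = l := by
      rw [h1, hl]
      ring
    exact_mod_cast this
  · intro x y hxy hA
    have h1 := inter_z h hr hxy
    rw [c_one h hxy hA, hr'] at h1
    have : ((nb (Adj f) x ∩ nb (Adj f) y).card : ℤ) = mu := by
      rw [h1, hmu]
      ring
    have h2 : (nb (Adj f) x ∩ nb (Adj f) y).card = mu := by exact_mod_cast this
    exact h2.le
  · have : (2 : ℤ) * k + (d + 1) * d * mu < 2 * (d + 1) * (l + 1) := by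
      rw [hkz, hmu, hl]
      nlinarith
    exact_mod_cast this
  · have : ((d : ℤ) - 1) * (l + 1) + M ≤ k + 1 := by
      rw [hkz, hM, hl]
      nlinarith
    have e : (((d - 1 : ℕ) : ℤ)) = d - 1 := by
      push_cast [Nat.cast_sub hd]
      ring
    rw [← e] at this
    exact_mod_cast this
  · have : (mu : ℤ) + 3 ≤ M := by
      rw [hmu, hM]
      nlinarith
    exact_mod_cast this
  · have : (l : ℤ) + mu + 4 ≤ 2 * M := by
      rw [hmu, hM, hl]
      nlinarith
    exact_mod_cast this
  · have : (k : ℤ) < (d + 1) * (M - 1) := by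
      rw [hkz, hM]
      nlinarith
    have e : (((M - 1 : ℕ) : ℤ)) = M - 1 := by
      push_cast [Nat.cast_sub hM1]
      ring
    rw [← e] at this
    exact_mod_cast this

open Classical in
/-- **Bruck's completion theorem**: a net of order `n` and deficiency `d` is part of an affine plane
if `n` is large compared with `d`. -/
theorem completion (h : Net n r f) {d : ℕ} (hd : 1 ≤ d) (hrd : r + d = n + 1)
    (hn : 100 * (d + 1) ^ 4 ≤ n) : ∃ B : Finset (Finset P), Aff n B := by
  obtain ⟨k, l, mu, M, hP, hk, hMk⟩ := par_of_net h hd hrd hn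
  have hd4 : d + 1 ≤ (d + 1) ^ 4 := Nat.le_self_pow (by norm_num) _
  have hr : 2 ≤ r := by omega
  have hn2 : 2 ≤ n := by omega
  have hclq : ∀ K : Finset P, Clq (Adj f) K → K.card ≤ n := by
    intro K hK
    have h1 := card_le_card_of_injOn (s := K) (t := (univ : Finset (Fin n)))
      (fun z => f ⟨0, by omega⟩ z) (fun _ _ => mem_univ _) (by
        intro z hz w hw hzw
        by_contra hne
        exact hK z hz w hw hne ⟨0, by omega⟩ hzw)
    rwa [card_univ, Fintype.card_fin] at h1
  refine ⟨univ.filter (fun b => GC (Adj f) M b ∨ ∃ (i : Fin r) (y : Fin n),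
    b = univ.filter (fun z => f i z = y)), ⟨hn2, net_card h hr, ?_, ?_, ?_⟩⟩
  · intro b hb
    rw [mem_filter] at hb
    rcases hb.2 with hb | ⟨i, y, rfl⟩
    · exact gc_card hP hn2 hk hclq hMk hb
    · exact fibre h hr i y
  · intro x y hxy
    by_cases hA : Adj f x y
    · obtain ⟨K, hK, h1, h2⟩ := gc_exists hP hA
      exact ⟨K, mem_filter.2 ⟨mem_univ _, Or.inl hK⟩, h1, h2⟩
    · unfold Adj at hA
      push Not at hA
      obtain ⟨i, hi⟩ := hA
      exact ⟨_, mem_filter.2 ⟨mem_univ _, Or.inr ⟨i, f i x, rfl⟩⟩,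
        mem_filter.2 ⟨mem_univ _, rfl⟩, mem_filter.2 ⟨mem_univ _, hi.symm⟩⟩
  · intro x y hxy b hb b' hb' h1 h2 h3 h4
    rw [mem_filter] at hb hb'
    rcases hb.2 with hb | ⟨i, u, rfl⟩
    · rcases hb'.2 with hb' | ⟨j, v, rfl⟩
      · exact gc_uniq hP hb hb' hxy h1 h2 h3 h4
      · rw [mem_filter] at h3 h4
        exact absurd (h3.2.trans h4.2.symm) (hb.1 x h1 y h2 hxy j)
    · rcases hb'.2 with hb' | ⟨j, v, rfl⟩
      · rw [mem_filter] at h1 h2
        exact absurd (h1.2.trans h2.2.symm) (hb'.1 x h3 y h4 hxy i)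
      · rw [mem_filter] at h1 h2 h3 h4
        by_cases hij : i = j
        · subst hij
          rw [← h1.2, ← h3.2]
        · exact absurd (inj h hij (h1.2.trans h2.2.symm) (h3.2.trans h4.2.symm)) hxy

end Pool.Agent.U396.BC
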