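import Pool.Agent.U396.BC.Net
import Pool.Agent.R116.AF.BR
import Pool.Agent.U343.Sm.Unif
import Pool.Agent.Y347.VL.ZM

set_option autoImplicit false

/-!
# Variational sets of permutation cubes and circuits of constant depth
-/

namespace Pool.Agent.U396.BC

open Finset Filter Topology
open Pool.Agent.R116.AF (Aff)
open Pool.Agent.H430R2.PermCubes (IsVariationalSet)
open Pool.Agent.U343.Sm (Cube Circuit bits real_unif)

/-- there is a variational set of `k` permutation cubes of dimension `m` and order `N` -/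
def Has (m N k : ℕ) : Prop := ∃ C : Fin k → (Fin m → Fin N) → Fin N, IsVariationalSet m N k C

theorem Has.mono {m N k k' : ℕ} (h : Has m N k) (hk : k' ≤ k) : Has m N k' := by
  obtain ⟨C, h1, h2⟩ := h
  refine ⟨fun i => C (Fin.castLE hk i), fun i => h1 _, fun e he => ?_⟩
  exact h2 (fun i => Fin.castLE hk (e i)) (fun i j hij => he (Fin.castLE_injective hk hij))

/-- the net of a variational set -/
theorem exists_aff {m N t : ℕ} (hm : 2 ≤ m) (hN : 100 * (t + 1 + m) ^ 4 ≤ N)
    (h : Has m N (N - (t + 1))) :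
    ∃ (P : Type) (_ : Fintype P) (_ : DecidableEq P) (B : Finset (Finset P)), Aff N B := by
  classical
  have h4 : t + 1 + m ≤ (t + 1 + m) ^ 4 := Nat.le_self_pow (by norm_num) _
  obtain ⟨C, h1, h2⟩ := h
  have hN0 : 0 < N := by omega
  have : NeZero N := ⟨hN0.ne'⟩
  obtain ⟨r, hr⟩ : ∃ r, r = N - (t + 1) - (m - 2) := ⟨_, rfl⟩
  have hK : N - (t + 1) = r + (m - 2) := by omega
  let P : Type := {x : Fin m → Fin N // ∀ i : Fin (N - (t + 1)), r ≤ (i : ℕ) → C i x = 0}
  let f : Fin r → P → Fin N := fun i x => C ⟨i, by omega⟩ x.1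
  have hnet : Net N r f := by
    constructor
    intro i j hij
    have hij' : (i : ℕ) ≠ j := fun h => hij (Fin.ext h)
    let e : Fin m → Fin (N - (t + 1)) := fun l =>
      if h0 : (l : ℕ) = 0 then ⟨i, by omega⟩ else if h1 : (l : ℕ) = 1 then ⟨j, by omega⟩
        else ⟨r + (l - 2), by have := l.2; omega⟩
    have he0 : ∀ l : Fin m, ((e l : Fin (N - (t + 1))) : ℕ) =
        if (l : ℕ) = 0 then (i : ℕ) else if (l : ℕ) = 1 then (j : ℕ) else r + (l - 2) := by
      intro l
      simp only [e]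
      split_ifs <;> rfl
    have he : Function.Injective e := by
      intro l l' hl
      have h3 := congrArg Fin.val hl
      rw [he0, he0] at h3
      apply Fin.ext
      have := i.2
      have := j.2
      split_ifs at h3 <;> omega
    have hb := h2 e he
    constructor
    · intro x y hxy
      rw [Prod.mk.injEq] at hxy
      apply Subtype.ext
      apply hb.1
      funext l
      change C (e l) x.1 = C (e l) y.1
      by_cases hl0 : (l : ℕ) = 0
      · have : e l = ⟨i, by omega⟩ := by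
          apply Fin.ext
          rw [he0, if_pos hl0]
        rw [this]
        exact hxy.1
      · by_cases hl1 : (l : ℕ) = 1
        · have : e l = ⟨j, by omega⟩ := by
            apply Fin.ext
            rw [he0, if_neg hl0, if_pos hl1]
          rw [this]
          exact hxy.2
        · have h3 : r ≤ ((e l : Fin (N - (t + 1))) : ℕ) := by
            rw [he0, if_neg hl0, if_neg hl1]
            omega
          rw [x.2 _ h3, y.2 _ h3]
    · rintro ⟨a, b⟩
      obtain ⟨x, hx⟩ := hb.2 (fun l => if (l : ℕ) = 0 then a else if (l : ℕ) = 1 then b else 0)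
      have hx' : ∀ l : Fin m, C (e l) x =
          if (l : ℕ) = 0 then a else if (l : ℕ) = 1 then b else 0 := fun l => congrFun hx l
      refine ⟨⟨x, ?_⟩, ?_⟩
      · intro i' hi'
        have hlt : (i' : ℕ) - r + 2 < m := by
          have := i'.2
          omega
        have h3 := hx' ⟨(i' : ℕ) - r + 2, hlt⟩
        have h4 : e ⟨(i' : ℕ) - r + 2, hlt⟩ = i' := by
          apply Fin.ext
          rw [he0, if_neg (by simp), if_neg (by simp)]
          simp only
          omega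
        rw [h4, if_neg (by simp), if_neg (by simp)] at h3
        exact h3
      · have h3 := hx' ⟨0, by omega⟩
        have h4 := hx' ⟨1, by omega⟩
        have h5 : e ⟨0, by omega⟩ = ⟨i, by omega⟩ := by
          apply Fin.ext
          rw [he0, if_pos rfl]
        have h6 : e ⟨1, by omega⟩ = ⟨j, by omega⟩ := by
          apply Fin.ext
          rw [he0, if_neg (by norm_num), if_pos rfl]
        rw [h5, if_pos rfl] at h3
        rw [h6, if_neg (by norm_num), if_pos rfl] at h4
        exact Prod.ext h3 h4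
  obtain ⟨B, hB⟩ := completion hnet (d := t + m) (by omega) (by omega) (by
    rw [show t + m + 1 = t + 1 + m by ring]
    exact hN)
  exact ⟨P, inferInstance, inferInstance, B, hB⟩

/-- the bound for orders excluded by the condition of Bruck and Ryser -/
theorem not_has {m N t q : ℕ} (hm : 2 ≤ m) (ht : 1 ≤ t) (hN : 100 * (t + m) ^ 4 ≤ N)
    (h4 : N % 4 = 1 ∨ N % 4 = 2) (hq : q.Prime) (hq4 : q % 4 = 3) (h1 : q ∣ N) (h2 : ¬ q ^ 2 ∣ N) :
    ¬ Has m N (N - t) := by
  intro h
  obtain ⟨t', rfl⟩ : ∃ t', t = t' + 1 := ⟨t - 1, by omega⟩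
  obtain ⟨P, i1, i2, B, hB⟩ := exists_aff hm hN h
  exact hB.br h4 hq h1 h2 hq4

/-- the gap: large variational sets give planes -/
theorem has_plane {m N t : ℕ} (hm : 2 ≤ m) (ht : 1 ≤ t) (hN : 100 * (t + m) ^ 4 ≤ N)
    (h : Has m N (N - t)) : Pool.Agent.H177R2.SD.IsSymmetricDesign (N ^ 2 + N + 1) (N + 1) 1 := by
  obtain ⟨t', rfl⟩ : ∃ t', t = t' + 1 := ⟨t - 1, by omega⟩
  obtain ⟨P, i1, i2, B, hB⟩ := exists_aff hm hN h
  exact hB.sym

/-- the number of cubes for prime orders -/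
def top (m N : ℕ) : ℕ := if m = 2 then N - 1 else N + 1

theorem has_prime {m p : ℕ} (hm : 2 ≤ m) (hp : p.Prime) (hmp : m ≤ p) : Has m p (top m p) := by
  have h := (Pool.Agent.Y347.VL.isGreatest_zmod hm hp.two_le).1
  rw [hp.minFac_eq] at h
  unfold top
  by_cases h2 : m = 2
  · rw [if_pos h2] at h ⊢
    obtain ⟨C, hC, -⟩ := h
    exact ⟨C, hC⟩
  · rw [if_neg h2] at h ⊢
    have hp2 : p ≠ 2 := by omega
    rw [if_neg hp2, max_eq_right hmp] at h
    obtain ⟨C, hC, -⟩ := h
    exact ⟨C, hC⟩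

/-- the answer `no` is wrong -/
def WrongNo (N : ℕ) : Prop := ∀ m, 2 ≤ m → m ≤ N → Has m N (top m N)

/-- the answer `yes` is wrong -/
def WrongYes (N : ℕ) : Prop :=
  ∀ m t, 2 ≤ m → 1 ≤ t → 100 * (t + m) ^ 4 ≤ N → ¬ Has m N (N - t)

open Classical in
theorem gap_of_unif {n q : ℕ} (hq : q.Prime) (hq4 : q % 4 = 3)
    {f : Cube n → Bool} {x : ℝ}
    (h : ∀ T : ℕ → Prop, (∀ p : ℕ, p.Prime → p % 4 = 1 → T p) →
      (∀ N : ℕ, N % 4 = 1 → q ∣ N → ¬ q ^ 2 ∣ N → ¬ T N) →
      x < ({N : ℕ | N < 2 ^ n ∧ N % 4 = 1 ∧ ¬ (f (bits n N) = true ↔ T N)}.ncard : ℝ)) :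
    x < ({N : ℕ | N < 2 ^ n ∧ N % 4 = 1 ∧ ((f (bits n N) = false ∧ WrongNo N) ∨
      (f (bits n N) = true ∧ WrongYes N))}.ncard : ℝ) + (8100 : ℕ) := by
  obtain ⟨n0, hn0⟩ : ∃ n0, n0 = 8100 := ⟨_, rfl⟩
  have h1 := h (fun N => if N < n0 then N.Prime else
    (WrongNo N ∨ (¬ WrongYes N ∧ f (bits n N) = true))) (by
      intro p hp _
      split_ifs with h2
      · exact hp
      · exact Or.inl fun m hm hmp => has_prime hm hp hmp) (by
      intro N hN h2 h3
      split_ifs with h5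
      · intro h6
        have := (Nat.prime_dvd_prime_iff_eq hq h6).1 h2
        omega
      · have h6 : WrongYes N := fun m t hm ht hmt => not_has hm ht hmt (Or.inl hN) hq hq4 h2 h3
        rintro (h7 | h7)
        · refine h6 2 1 le_rfl le_rfl (by omega) ((h7 2 le_rfl (by omega)).mono ?_)
          unfold top
          rw [if_pos rfl]
        · exact h7.1 h6)
  refine lt_of_lt_of_le h1 ?_
  rw [← hn0]
  have hfin : {N : ℕ | N < 2 ^ n ∧ N % 4 = 1 ∧ ((f (bits n N) = false ∧ WrongNo N) ∨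
      (f (bits n N) = true ∧ WrongYes N))}.Finite :=
    (Set.finite_lt_nat (2 ^ n)).subset fun N hN => hN.1
  have hsub : {N : ℕ | N < 2 ^ n ∧ N % 4 = 1 ∧ ¬ (f (bits n N) = true ↔
      (if N < n0 then N.Prime else (WrongNo N ∨ (¬ WrongYes N ∧ f (bits n N) = true))))} ⊆
      {N : ℕ | N < 2 ^ n ∧ N % 4 = 1 ∧ ((f (bits n N) = false ∧ WrongNo N) ∨
      (f (bits n N) = true ∧ WrongYes N))} ∪ {N : ℕ | N < n0} := by
    rintro N ⟨h2, h3, h5⟩
    by_cases h6 : N < n0
    · exact Or.inr h6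
    · rw [if_neg h6] at h5
      refine Or.inl ⟨h2, h3, ?_⟩
      cases hf : f (bits n N)
      · left
        refine ⟨rfl, ?_⟩
        by_contra h7
        apply h5
        rw [hf]
        constructor
        · intro h8
          exact absurd h8 (by decide)
        · rintro (h8 | h8)
          · exact absurd h8 h7
          · exact absurd h8.2 (by decide)
      · right
        refine ⟨rfl, ?_⟩
        by_contra h7
        apply h5
        rw [hf]
        exact ⟨fun _ => Or.inr ⟨h7, rfl⟩, fun _ => rfl⟩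
  have h5 := (Set.ncard_le_ncard hsub (hfin.union (Set.finite_lt_nat n0))).trans
    (Set.ncard_union_le _ _)
  have h6 : {N : ℕ | N < n0}.ncard = n0 := by
    have : {N : ℕ | N < n0} = ((range n0 : Finset ℕ) : Set ℕ) := by
      ext N
      simp
    rw [this, Set.ncard_coe_finset, card_range]
  rw [h6] at h5
  exact_mod_cast h5

/-- **the theorem** -/
theorem main {r : ℕ} (hr : r.Prime) (d : ℕ) :
    ∃ κ : ℝ, 0 < κ ∧ ∀ᶠ n : ℕ in atTop, ∀ (S : ℕ) (f : Cube n → Bool),
      Circuit r S n d f → (S : ℝ) ≤ 2 ^ ((n : ℝ) ^ (1 / (2 * (d : ℝ) + 5))) →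
      κ * 2 ^ n / n <
        ({N : ℕ | N < 2 ^ n ∧ N % 4 = 1 ∧ ((f (bits n N) = false ∧ WrongNo N) ∨
          (f (bits n N) = true ∧ WrongYes N))}.ncard : ℝ) := by
  obtain ⟨q, hq, hq4, hqr⟩ : ∃ q : ℕ, q.Prime ∧ q % 4 = 3 ∧ q ≠ r := by
    by_cases h3 : r = 3
    · exact ⟨7, by norm_num, by norm_num, by omega⟩
    · exact ⟨3, by norm_num, by norm_num, fun h => h3 h.symm⟩
  obtain ⟨κ, hκ, h⟩ := real_unif hr hq hq4 hqr d
  refine ⟨κ / 2, by positivity, ?_⟩
  obtain ⟨n0, hn0⟩ : ∃ n0 : ℕ, n0 = 8100 := ⟨_, rfl⟩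
  obtain ⟨n1, hn1⟩ := exists_nat_ge (2 * (n0 : ℝ) / κ)
  filter_upwards [h, eventually_ge_atTop (max n1 4)] with n hn hn' S f hC hS
  have h1 := gap_of_unif hq hq4 (hn S f hC hS)
  rw [← hn0] at h1
  have hn4 : 4 ≤ n := (le_max_right _ _).trans hn'
  have hnn1 : (n1 : ℝ) ≤ n := by exact_mod_cast (le_max_left _ _).trans hn'
  have hnpos : (0 : ℝ) < n := by
    have : 0 < n := by omega
    exact_mod_cast this
  have h2n : (n : ℝ) * n ≤ 2 ^ n := by
    have : n * n ≤ 2 ^ n := by
      obtain ⟨e, rfl⟩ : ∃ e, n = e + 4 := ⟨n - 4, by omega⟩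
      clear h1 hn hn' hnn1 hnpos hS hC f hn4
      induction e with
      | zero => norm_num
      | succ e ih =>
        rw [show e + 1 + 4 = (e + 4) + 1 by ring, pow_succ]
        nlinarith
    exact_mod_cast this
  have h3 : (n0 : ℝ) ≤ κ / 2 * 2 ^ n / n := by
    rw [le_div_iff₀ hnpos]
    have h4 : 2 * (n0 : ℝ) ≤ n * κ := by
      have h5 := hn1.trans hnn1
      rwa [div_le_iff₀ hκ] at h5
    nlinarith
  have h4 : κ * 2 ^ n / n = κ / 2 * 2 ^ n / n + κ / 2 * 2 ^ n / n := by ring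
  linarith

end Pool.Agent.U396.BC
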